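import Pool.Agent.H95.LX.Wave
import Pool.Agent.H18.LC.Sign

/-!
# All exponents at most `3/2` force `p(n) ≥ 4n - K`
-/

set_option autoImplicit false

namespace Pool.Agent.H95.LX

open Set
open Pool.Agent.H18.LC

variable {A : Type*} {x : ℕ → A}

lemma exists_ret (x : ℕ → A) (n i0 ν i : ℕ) :
    ∃ l, 1 ≤ l ∧ (blk x n (i0 + i + l) = blk x n (i0 + i) ∨ 8 * ν ≤ l) :=
  ⟨8 * ν + 1, by omega, Or.inr (by omega)⟩

open Classical in
/-- The first return time, at most `8 ν`. -/
noncomputable def ret (x : ℕ → A) (n i0 ν i : ℕ) : ℕ := Nat.find (exists_ret x n i0 ν i)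

section
variable {n i0 ν : ℕ}

lemma ret_pos (i : ℕ) : 1 ≤ ret x n i0 ν i := by
  classical
  exact (Nat.find_spec (exists_ret x n i0 ν i)).1

lemma ret_eq {i : ℕ} (h : ret x n i0 ν i < 8 * ν) :
    blk x n (i0 + i + ret x n i0 ν i) = blk x n (i0 + i) := by
  classical
  rcases (Nat.find_spec (exists_ret x n i0 ν i)).2 with h1 | h1
  · exact h1
  · have : 8 * ν ≤ ret x n i0 ν i := h1
    omega

lemma ret_min {i l : ℕ} (hl : 1 ≤ l) (h : blk x n (i0 + i + l) = blk x n (i0 + i)) :
    ret x n i0 ν i ≤ l := by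
  classical
  exact Nat.find_min' (exists_ret x n i0 ν i) ⟨hl, Or.inl h⟩

lemma ret_le (hν : 1 ≤ ν) (i : ℕ) : ret x n i0 ν i ≤ 8 * ν := by
  classical
  exact Nat.find_min' (exists_ret x n i0 ν i) ⟨by omega, Or.inr le_rfl⟩

lemma ret_letter {i : ℕ} (h : ret x n i0 ν i < 8 * ν) {t : ℕ} (ht : t < n) :
    x (i0 + i + t) = x (i0 + i + ret x n i0 ν i + t) :=
  ((blk_eq_iff x n _ _).1 (ret_eq h) t ht).symm

/-- The number of pairs. -/
lemma sum_ret_le (hν : 1 ≤ ν) (hfin : (FI x n).Finite) (hi0 : ∀ i, i0 ≤ i → blk x n i ∈ FI x n)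
    (N : ℕ) : ∑ i ∈ Finset.range N, ret x n i0 ν i ≤ (FI x n).ncard * (N + 8 * ν) := by
  classical
  have h1 : ∀ i ∈ Finset.range N, ret x n i0 ν i = ∑ y ∈ Finset.range (N + 8 * ν),
      (if i ≤ y ∧ y < i + ret x n i0 ν i then 1 else 0) := by
    intro i hi
    rw [Finset.mem_range] at hi
    rw [← Finset.card_filter]
    have h2 : (Finset.range (N + 8 * ν)).filter (fun y => i ≤ y ∧ y < i + ret x n i0 ν i) =
        Finset.Ico i (i + ret x n i0 ν i) := by
      ext y
      have := ret_le (x := x) (n := n) (i0 := i0) hν i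
      simp only [Finset.mem_filter, Finset.mem_range, Finset.mem_Ico]
      omega
    rw [h2, Nat.card_Ico]
    omega
  rw [Finset.sum_congr rfl h1, Finset.sum_comm]
  have h3 : ∀ y ∈ Finset.range (N + 8 * ν), (∑ i ∈ Finset.range N,
      (if i ≤ y ∧ y < i + ret x n i0 ν i then 1 else 0)) ≤ (FI x n).ncard := by
    intro y _
    rw [← Finset.card_filter, Set.ncard_eq_toFinset_card _ hfin]
    apply Finset.card_le_card_of_injOn (fun i => blk x n (i0 + i))
    · intro i _
      simp only [Set.Finite.coe_toFinset]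
      exact hi0 _ (by omega)
    · have key : ∀ i i', i < i' → i' ≤ y → y < i + ret x n i0 ν i →
          blk x n (i0 + i) = blk x n (i0 + i') → False := by
        intro i i' hii hy hy2 he
        have h4 := ret_min (x := x) (n := n) (i0 := i0) (ν := ν) (i := i) (l := i' - i) (by omega)
          (by rw [show i0 + i + (i' - i) = i0 + i' by omega]; exact he.symm)
        omega
      intro i hi i' hi' he
      simp only [Finset.coe_filter, Finset.mem_range, Set.mem_ofPred_eq] at hi hi'
      rcases Nat.lt_trichotomy i i' with h | h | h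
      · exact (key i i' h hi'.2.1 hi.2.2 he).elim
      · exact h
      · exact (key i' i h hi.2.1 hi'.2.2 he.symm).elim
  refine (Finset.sum_le_sum h3).trans ?_
  rw [Finset.sum_const, Finset.card_range, smul_eq_mul, Nat.mul_comm]

/-- The return times have the properties of a wave. -/
lemma wave {K : ℕ} (H : Exp32 x K) (hn : n = K + 1 + ν) (hν : 1 ≤ ν) :
    Wave (fun i => (ret x n i0 ν i : ℤ)) ν := by
  refine ⟨?_, ?_, ?_, ?_⟩
  · intro i
    rcases Nat.lt_or_ge (ret x n i0 ν i) (8 * ν) with h | h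
    · have h1 := H (i0 + i) (ret x n i0 ν i) n (ret_pos i) (fun t ht => ret_letter h ht)
      omega
    · omega
  · intro i m hm hlt hc
    have hlt' : ret x n i0 ν i < 8 * ν := by omega
    have h1 := agree_of_keep (x := x) (n := n) (i := i0 + i) (j := i0 + i + ret x n i0 ν i)
      (e := m - 1) (by omega) (by
        intro t ht
        have h2 : ret x n i0 ν (i + t) = ret x n i0 ν i := by
          have := hc t (by omega)
          exact_mod_cast this
        have h3 := ret_eq (x := x) (n := n) (i0 := i0) (ν := ν) (i := i + t) (by omega)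
        rw [h2] at h3
        rw [show i0 + i + t = i0 + (i + t) by ring,
          show i0 + i + ret x n i0 ν i + t = i0 + (i + t) + ret x n i0 ν i by ring, h3])
    have h4 := H (i0 + i) (ret x n i0 ν i) (n + (m - 1)) (ret_pos i) (fun t ht => h1 t ht)
    omega
  · intro i t hne h6
    have hne' : ret x n i0 ν i ≠ ret x n i0 ν (i + 1 + t) := fun h => hne (by rw [h])
    rcases Nat.lt_or_ge t ν with ht | ht
    · have ha := ret_le (x := x) (n := n) (i0 := i0) hν i
      have hb := ret_le (x := x) (n := n) (i0 := i0) hν (i + 1 + t)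
      rcases Nat.lt_or_ge (ret x n i0 ν i) (8 * ν) with h1 | h1
      · rcases Nat.lt_or_ge (ret x n i0 ν (i + 1 + t)) (8 * ν) with h2 | h2
        · -- two true return times
          set l := ret x n i0 ν i with hl
          set l' := ret x n i0 ν (i + 1 + t) with hl'
          have h3 : ∀ j < n - 1 - t, x (i0 + i + 1 + t + l + j) = x (i0 + i + 1 + t + l' + j) := by
            intro j hj
            have h4 := ret_letter (x := x) (n := n) (i0 := i0) (ν := ν) (i := i) h1
              (t := 1 + t + j) (by omega)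
            have h5 := ret_letter (x := x) (n := n) (i0 := i0) (ν := ν) (i := i + 1 + t) h2
              (t := j) (by omega)
            rw [← hl] at h4
            rw [← hl'] at h5
            rw [show i0 + i + 1 + t + l + j = i0 + i + l + (1 + t + j) by ring, ← h4,
              show i0 + i + (1 + t + j) = i0 + (i + 1 + t) + j by ring, h5,
              show i0 + (i + 1 + t) + l' + j = i0 + i + 1 + t + l' + j by ring]
          rcases Nat.lt_or_gt_of_ne hne' with h4 | h4
          · have h5 := H (i0 + i + 1 + t + l) (l' - l) (n - 1 - t) (by omega) (by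
              intro j hj
              rw [h3 j hj]
              congr 1
              omega)
            have h6 := neg_abs_le ((l : ℤ) - l')
            omega
          · have h5 := H (i0 + i + 1 + t + l') (l - l') (n - 1 - t) (by omega) (by
              intro j hj
              rw [← h3 j hj]
              congr 1
              omega)
            have h6 := le_abs_self ((l : ℤ) - l')
            omega
        · have h7 := neg_abs_le ((ret x n i0 ν i : ℤ) - ret x n i0 ν (i + 1 + t))
          omega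
      · have h7 := le_abs_self ((ret x n i0 ν i : ℤ) - ret x n i0 ν (i + 1 + t))
        omega
    · have := abs_nonneg ((ret x n i0 ν i : ℤ) - ret x n i0 ν (i + 1 + t))
      omega
  · intro i t k heq hlt hk hgt
    by_contra hc
    push Not at hc
    have heq' : ret x n i0 ν i = ret x n i0 ν (i + 1 + t) := by exact_mod_cast heq
    have hlt' : ret x n i0 ν i < 8 * ν := by omega
    have hlet : ∀ j < 1 + t + n, x (i0 + i + j) = x (i0 + i + ret x n i0 ν i + j) := by
      intro j hj
      rcases Nat.lt_or_ge j n with h1 | h1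
      · exact ret_letter hlt' h1
      · have h2 := ret_letter (x := x) (n := n) (i0 := i0) (ν := ν) (i := i + 1 + t)
          (by omega) (t := j - (1 + t)) (by omega)
        rw [← heq'] at h2
        rw [show i0 + i + j = i0 + (i + 1 + t) + (j - (1 + t)) by omega, h2]
        congr 1
        omega
    have h3 : ret x n i0 ν (i + k) ≤ ret x n i0 ν i := by
      apply ret_min (ret_pos i)
      rw [blk_eq_iff]
      intro s hs
      have h4 := hlet (k + s) (by omega)
      rw [show i0 + (i + k) + ret x n i0 ν i + s = i0 + i + ret x n i0 ν i + (k + s) by ring, ← h4,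
        show i0 + (i + k) + s = i0 + i + (k + s) by ring]
    omega

end

/-- **All exponents at most `3/2` force `p(n) ≥ 4n - K'`.** -/
theorem exp4 (hfin : ∀ n, (Set.range (blk x n)).Finite) {K : ℕ} (H : Exp32 x K) (n : ℕ) :
    4 * n ≤ (FI x n).ncard + (4 * K + 4) := by
  rcases Nat.lt_or_ge n (K + 2) with hn | hn
  · omega
  · obtain ⟨ν, hν⟩ : ∃ ν, n = K + 1 + ν := ⟨n - (K + 1), by omega⟩
    have hν1 : 1 ≤ ν := by omega
    obtain ⟨i0, hi0⟩ := FI_thresh hfin n
    have hw := wave (x := x) (n := n) (i0 := i0) H hν hν1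
    by_contra hc
    push Not at hc
    have hp : (FI x n).ncard + 1 ≤ 4 * ν := by omega
    have h1 := sum_ret_le (x := x) (n := n) hν1 (FI_finite hfin n) hi0 (33 * ν ^ 2 + 1)
    have h2 := mean_le hw (33 * ν ^ 2 + 1)
    rw [Finset.sum_sub_distrib, Finset.sum_const, Finset.card_range, nsmul_eq_mul] at h2
    have h3 : ((∑ i ∈ Finset.range (33 * ν ^ 2 + 1), ret x n i0 ν i : ℕ) : ℤ) ≤
        (((FI x n).ncard * (33 * ν ^ 2 + 1 + 8 * ν) : ℕ) : ℤ) := by exact_mod_cast h1
    have h4 : (((FI x n).ncard * (33 * ν ^ 2 + 1 + 8 * ν) : ℕ) : ℤ) ≤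
        (4 * ν - 1) * (33 * ν ^ 2 + 1 + 8 * ν) := by
      have h5 : ((FI x n).ncard : ℤ) ≤ 4 * ν - 1 := by
        have : (((FI x n).ncard + 1 : ℕ) : ℤ) ≤ ((4 * ν : ℕ) : ℤ) := by exact_mod_cast hp
        push_cast at this
        linarith
      push_cast
      exact mul_le_mul_of_nonneg_right h5 (by positivity)
    push_cast at h2 h3
    nlinarith [sq_nonneg (ν : ℤ), (by exact_mod_cast hν1 : (1 : ℤ) ≤ ν)]

/-- **Words up to sign, exponent `3/2`.** -/
theorem sign_exp4 {c e : ℕ → ℤ} {B : ℤ} (hc : ∀ k, |c k| ≤ B) (he : ∀ k, |e k| ≤ B)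
    {g : ℕ} (hg : ∀ i, ∃ j < g, e (i + j) ≠ 0) {K : ℕ}
    (H : ∀ (i l s : ℕ) (τ : ℤ), (τ = 1 ∨ τ = -1) → 1 ≤ l →
      (∀ j < s, c (i + j) = c (i + l + j) ∧ e (i + l + j) = τ * e (i + j)) → 2 * s < l + K)
    (n : ℕ) : ((4 * n : ℕ) : ℕ∞) ≤
      (Set.range (signBlock c e n)).encard + (4 * K + 4 + 4 * g : ℕ) := by
  rcases Nat.lt_or_ge n g with hn | hn
  · refine le_trans ?_ le_add_self
    exact_mod_cast (by omega : 4 * n ≤ 4 * K + 4 + 4 * g)
  · have h1 := exp4 (rel_finite hc he) (x := rel c e) (K := K) (by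
      intro i l s hl h
      obtain ⟨τ, hτ, h'⟩ := rel_run h
      exact H i l s τ hτ hl h') (n - g)
    have h2 := rel_complexity (c := c) hg (n - g)
    rw [show n - g + g = n by omega, ← (FI_finite (rel_finite hc he) (n - g)).cast_ncard_eq] at h2
    calc ((4 * n : ℕ) : ℕ∞) ≤ (((FI (rel c e) (n - g)).ncard + (4 * K + 4 + 4 * g) : ℕ) : ℕ∞) := by
          exact_mod_cast (by omega : 4 * n ≤ (FI (rel c e) (n - g)).ncard + (4 * K + 4 + 4 * g))
      _ = ((FI (rel c e) (n - g)).ncard : ℕ∞) + (4 * K + 4 + 4 * g : ℕ) := by push_cast; rfl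
      _ ≤ _ := by gcongr

end Pool.Agent.H95.LX
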