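import Mathlib

/-!
# The cost of a gap
-/

set_option autoImplicit false

namespace Pool.Agent.H95.LX

open Finset

/-- The final inequality, first case. -/
lemma ineq_a {ν A B h C : ℤ} (hB : 0 ≤ B) (hBA : B ≤ A) (hA : A < 2 * ν) (hh : 2 * ν - (A - B) ≤ 2 * h)
    (hC : A ≤ C) (h0 : 0 ≤ h) : A * (2 * ν - A) + B * (2 * ν - B) ≤ 4 * (C * h) := by
  have h1 : A * h ≤ C * h := mul_le_mul_of_nonneg_right hC h0
  have h2 : A * (2 * ν - (A - B)) ≤ A * (2 * h) := mul_le_mul_of_nonneg_left hh (by omega)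
  have h3 : 0 ≤ (A - B) * (2 * ν - A - B) + 2 * (A * B) := by
    rcases le_total (A + B) (2 * ν) with h | h
    · have := mul_nonneg (sub_nonneg.2 hBA) (by omega : 0 ≤ 2 * ν - A - B)
      have := mul_nonneg (hB.trans hBA) hB
      omega
    · have h4 : (A - B) * (A + B - 2 * ν) ≤ A * B :=
        mul_le_mul (by omega) (by omega) (by omega) (by omega)
      have := mul_nonneg (hB.trans hBA) hB
      nlinarith
  nlinarith

/-- The final inequality, second case. -/
lemma ineq_b {ν A B h C G : ℤ} (hB : 0 ≤ B) (hBA : B ≤ A) (hA : A < 2 * ν)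
    (hh : 2 * ν - (A - B) ≤ 2 * h) (hC0 : 0 ≤ C) (hC : C < A) (hG : A - C ≤ 2 * G)
    (hG2 : 2 * G ≤ A - C + 1) :
    A * (2 * ν - A) + B * (2 * ν - B) ≤ 4 * (C * h + (2 * ν * G - G * (G - 1))) := by
  have h1 : C * (2 * ν - (A - B)) ≤ C * (2 * h) := mul_le_mul_of_nonneg_left hh hC0
  have h2 : 4 * ν * (A - C) - (A - C) ^ 2 ≤ 4 * (2 * ν * G - G * (G - 1)) := by
    have h3 : 0 ≤ 2 * G - (A - C) := by omega
    have h4 : 0 ≤ 4 * ν - 2 * G - (A - C) + 2 := by omega
    nlinarith [mul_nonneg h3 h4]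
  have h5 : 0 ≤ 2 * ν * (A - B) + B ^ 2 + 2 * (C * B) - C ^ 2 := by
    rcases le_total C B with h | h
    · have := mul_nonneg hC0 (sub_nonneg.2 h)
      have := mul_nonneg (by omega : 0 ≤ 2 * ν) (sub_nonneg.2 hBA)
      nlinarith [sq_nonneg B, mul_nonneg hC0 hB]
    · have h6 : (C - B) ^ 2 ≤ (A - B) ^ 2 := by
        apply pow_le_pow_left₀ (by omega) (by omega)
      have h7 : (A - B) * (A - B) ≤ 2 * ν * (A - B) :=
        mul_le_mul_of_nonneg_right (by omega) (by omega)
      nlinarith [sq_nonneg B]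
  nlinarith

lemma sum_triangle (ν : ℤ) (G : ℕ) :
    ∑ t ∈ range G, (2 * (ν - (t : ℤ))) = 2 * ν * G - G * (G - 1) := by
  induction G with
  | zero => simp
  | succ G ih =>
    rw [sum_range_succ, ih]
    push_cast
    ring

/-- The cost of a gap of length `h` between a low interval of level `A` on its left and one of level
`B ≤ A` on its right. -/
theorem gapL {ν : ℕ} {f : ℕ → ℤ} {h : ℕ} {A B : ℤ} (hh1 : 1 ≤ h) (hB : 0 ≤ B) (hBA : B ≤ A)
    (hA : A < 2 * ν) (hf : ∀ t < h, 4 * (ν : ℤ) ≤ f t)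
    (hL : ∀ t < h, f t < 6 * ν → 2 * ((ν : ℤ) - t) ≤ f t - (2 * ν + A))
    (hD : ∀ s t, s < t → t < h → f t < f s → f t < 6 * ν →
      2 * ((ν : ℤ) - ((t : ℤ) - s - 1)) ≤ f s - f t)
    (hH : 2 * (ν : ℤ) - (A - B) ≤ 2 * h) :
    A * (2 * ν - A) + B * (2 * ν - B) ≤ 4 * ∑ t ∈ range h, (f t - 4 * ν) := by
  classical
  -- the first minimum
  have hex : ∃ z, z < h ∧ ∀ t < h, f z ≤ f t := by
    obtain ⟨z, hz, hz'⟩ := Finset.exists_min_image (range h) f ⟨0, mem_range.2 hh1⟩
    exact ⟨z, mem_range.1 hz, fun t ht => hz' t (mem_range.2 ht)⟩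
  set z := Nat.find hex with hzdef
  obtain ⟨hz, hmin⟩ := Nat.find_spec hex
  rw [← hzdef] at hz hmin
  have hfirst : ∀ t < z, f z < f t := by
    intro t ht
    by_contra hc
    push Not at hc
    refine Nat.find_min hex ht ⟨by omega, fun s hs => hc.trans (hmin s hs)⟩
  set C : ℤ := f z - 4 * ν with hCdef
  have hC0 : 0 ≤ C := by have := hf z hz; omega
  rcases le_or_gt A C with hAC | hAC
  · have h1 : ∑ _t ∈ range h, C ≤ ∑ t ∈ range h, (f t - 4 * ν) := by
      apply sum_le_sum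
      intro t ht
      have := hmin t (mem_range.1 ht)
      omega
    rw [sum_const, card_range, nsmul_eq_mul] at h1
    have h2 := ineq_a hB hBA hA hH hAC (by positivity : (0 : ℤ) ≤ h)
    nlinarith
  · have hfz : f z < 6 * ν := by omega
    have hLz := hL z hz hfz
    -- number of cells used
    obtain ⟨G, hG1, hG2⟩ : ∃ G : ℕ, A - C ≤ 2 * (G : ℤ) ∧ 2 * (G : ℤ) ≤ A - C + 1 := by
      refine ⟨((A - C + 1) / 2).toNat, ?_, ?_⟩
      · rw [Int.toNat_of_nonneg (by omega)]; omega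
      · rw [Int.toNat_of_nonneg (by omega)]; omega
    have hGz : G ≤ z := by omega
    have hsum : C * h + (2 * ν * G - G * (G - 1)) ≤ ∑ t ∈ range h, (f t - 4 * ν) := by
      have h1 : ∑ t ∈ range h, (C + (if z - G ≤ t ∧ t < z then
          2 * ((ν : ℤ) - ((z : ℤ) - t - 1)) else 0)) ≤ ∑ t ∈ range h, (f t - 4 * ν) := by
        apply sum_le_sum
        intro t ht
        have h2 := hmin t (mem_range.1 ht)
        split_ifs with h3
        · have h4 := hD t z h3.2 hz (hfirst t h3.2) hfz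
          omega
        · omega
      refine le_trans (le_of_eq ?_) h1
      rw [sum_add_distrib, sum_const, card_range, nsmul_eq_mul, ← sum_filter]
      have h5 : ∑ t ∈ (range h).filter (fun t => z - G ≤ t ∧ t < z),
          (2 * ((ν : ℤ) - ((z : ℤ) - t - 1))) = ∑ t ∈ range G, (2 * ((ν : ℤ) - (t : ℤ))) := by
        symm
        apply sum_bij (fun t _ => z - 1 - t)
        · intro t ht
          rw [mem_range] at ht
          rw [mem_filter, mem_range]
          omega
        · intro a ha b hb hab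
          rw [mem_range] at ha hb
          omega
        · intro b hb
          rw [mem_filter, mem_range] at hb
          exact ⟨z - 1 - b, by rw [mem_range]; omega, by omega⟩
        · intro t ht
          rw [mem_range] at ht
          have : ((z - 1 - t : ℕ) : ℤ) = z - 1 - t := by omega
          rw [this]
          ring
      rw [h5, sum_triangle]
      ring
    have h2 := ineq_b hB hBA hA hH hC0 hAC hG1 hG2
    linarith

/-- The cost of a gap. -/
theorem gap {ν : ℕ} {f : ℕ → ℤ} {h : ℕ} {A B : ℤ} (hh1 : 1 ≤ h) (hA0 : 0 ≤ A) (hB0 : 0 ≤ B)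
    (hA : A < 2 * ν) (hB : B < 2 * ν) (hf : ∀ t < h, 4 * (ν : ℤ) ≤ f t)
    (hL : ∀ t < h, f t < 6 * ν → 2 * ((ν : ℤ) - t) ≤ f t - (2 * ν + A))
    (hR : ∀ t < h, f t < 6 * ν → 2 * ((ν : ℤ) - ((h : ℤ) - 1 - t)) ≤ f t - (2 * ν + B))
    (hD : ∀ s t, s < t → t < h → f s ≠ f t → (f s < 6 * ν ∨ f t < 6 * ν) →
      2 * ((ν : ℤ) - ((t : ℤ) - s - 1)) ≤ |f s - f t|)
    (hH : 2 * (ν : ℤ) - |A - B| ≤ 2 * h) :
    A * (2 * ν - A) + B * (2 * ν - B) ≤ 4 * ∑ t ∈ range h, (f t - 4 * ν) := by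
  rcases le_total B A with hBA | hBA
  · refine gapL hh1 hB0 hBA hA hf hL ?_ ?_
    · intro s t hst ht hlt h6
      have := hD s t hst ht (by omega) (Or.inr h6)
      rwa [abs_of_pos (by omega)] at this
    · rwa [abs_of_nonneg (by omega)] at hH
  · have key := gapL (f := fun t => f (h - 1 - t)) (A := B) (B := A) hh1 hA0 hBA hB
      (fun t ht => hf _ (by omega)) ?_ ?_ ?_
    · have e : ∑ t ∈ range h, ((fun t => f (h - 1 - t)) t - 4 * (ν : ℤ)) =
          ∑ t ∈ range h, (f t - 4 * ν) := by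
        exact Finset.sum_range_reflect (fun t => f t - 4 * (ν : ℤ)) h
      rw [e] at key
      linarith
    · intro t ht h6
      have h1 := hR (h - 1 - t) (by omega) h6
      have : ((h - 1 - t : ℕ) : ℤ) = h - 1 - t := by omega
      rw [this] at h1
      linarith
    · intro s t hst ht hlt h6
      have h1 := hD (h - 1 - t) (h - 1 - s) (by omega) (by omega) (by omega) (Or.inl h6)
      have e1 : ((h - 1 - t : ℕ) : ℤ) = h - 1 - t := by omega
      have e2 : ((h - 1 - s : ℕ) : ℤ) = h - 1 - s := by omega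
      rw [e1, e2, abs_of_neg (by omega)] at h1
      linarith
    · rw [abs_of_nonpos (by omega)] at hH
      linarith

end Pool.Agent.H95.LX
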