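import Pool.Agent.H95.LX.Exp4

/-!
# The local form: blocks of length `n` inside a block of length `M`
-/

set_option autoImplicit false

namespace Pool.Agent.H95.LX

open Set
open Pool.Agent.H18.LC

variable {A : Type*} {x : ℕ → A}

/-- The positions of the subblocks of length `n` of the block of length `M` at `i`. -/
def pos (n M i : ℕ) : Set ℕ := {j | i ≤ j ∧ j + n ≤ i + M}

lemma pos_finite (n M i : ℕ) : (pos n M i).Finite :=
  (Set.finite_Icc i (i + M)).subset (fun j hj => ⟨hj.1, by have := hj.2; omega⟩)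

/-- The number of pairs, local form. -/
lemma sum_ret_loc {n i0 ν : ℕ} (hν : 1 ≤ ν) {S : Set (Fin n → A)} (hS : S.Finite) {N : ℕ}
    (hi0 : ∀ i < N, blk x n (i0 + i) ∈ S) :
    ∑ i ∈ Finset.range N, ret x n i0 ν i ≤ S.ncard * (N + 8 * ν) := by
  classical
  have h1 : ∀ i ∈ Finset.range N, ret x n i0 ν i = ∑ y ∈ Finset.range (N + 8 * ν),
      (if i ≤ y ∧ y < i + ret x n i0 ν i then 1 else 0) := by
    intro i hi
    rw [Finset.mem_range] at hi
    rw [← Finset.card_filter]
    have h2 : (Finset.range (N + 8 * ν)).filter (fun y => i ≤ y ∧ y < i + ret x n i0 ν i) =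
        Finset.Ico i (i + ret x n i0 ν i) := by
      ext y
      have := ret_le (x := x) (n := n) (i0 := i0) hν i
      simp only [Finset.mem_filter, Finset.mem_range, Finset.mem_Ico]
      omega
    rw [h2, Nat.card_Ico]
    omega
  rw [Finset.sum_congr rfl h1, Finset.sum_comm]
  have h3 : ∀ y ∈ Finset.range (N + 8 * ν), (∑ i ∈ Finset.range N,
      (if i ≤ y ∧ y < i + ret x n i0 ν i then 1 else 0)) ≤ S.ncard := by
    intro y _
    rw [← Finset.card_filter, Set.ncard_eq_toFinset_card _ hS]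
    apply Finset.card_le_card_of_injOn (fun i => blk x n (i0 + i))
    · intro i hi
      simp only [Finset.coe_filter, Finset.mem_range, Set.mem_ofPred_eq] at hi
      simp only [Set.Finite.coe_toFinset]
      exact hi0 _ hi.1
    · have key : ∀ i i', i < i' → i' ≤ y → y < i + ret x n i0 ν i →
          blk x n (i0 + i) = blk x n (i0 + i') → False := by
        intro i i' hii hy hy2 he
        have h4 := ret_min (x := x) (n := n) (i0 := i0) (ν := ν) (i := i) (l := i' - i) (by omega)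
          (by rw [show i0 + i + (i' - i) = i0 + i' by omega]; exact he.symm)
        omega
      intro i hi i' hi' he
      simp only [Finset.coe_filter, Finset.mem_range, Set.mem_ofPred_eq] at hi hi'
      rcases Nat.lt_trichotomy i i' with h | h | h
      · exact (key i i' h hi'.2.1 hi.2.2 he).elim
      · exact h
      · exact (key i' i h hi.2.1 hi'.2.2 he.symm).elim
  refine (Finset.sum_le_sum h3).trans ?_
  rw [Finset.sum_const, Finset.card_range, smul_eq_mul, Nat.mul_comm]

/-- **All exponents at most `3/2`, local form**: a block of length `M` has at least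
`4 n - 40 n² / M - (4 K + 4)` subblocks of length `n`. -/
theorem exp4_loc {K : ℕ} (H : Exp32 x K) (n M i : ℕ) :
    4 * n * M ≤ ((blk x n '' pos n M i).ncard + (4 * K + 4)) * M + 40 * n ^ 2 := by
  rcases Nat.lt_or_ge n (K + 2) with hn | hn
  · have : 4 * n * M ≤ (4 * K + 4) * M := Nat.mul_le_mul_right _ (by omega)
    nlinarith
  rcases Nat.lt_or_ge M (10 * n + 1) with hM | hM
  · have : 4 * n * M ≤ 4 * n * (10 * n) := Nat.mul_le_mul_left _ (by omega)
    nlinarith
  obtain ⟨ν, hν⟩ : ∃ ν, n = K + 1 + ν := ⟨n - (K + 1), by omega⟩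
  have hν1 : 1 ≤ ν := by omega
  have hw := wave (x := x) (n := n) (i0 := i) H hν hν1
  set P := (blk x n '' pos n M i).ncard with hP
  obtain ⟨N, hN⟩ : ∃ N, M + 1 = N + 8 * ν + n := ⟨M + 1 - (8 * ν + n), by omega⟩
  have h1 := sum_ret_loc (x := x) (n := n) (i0 := i) (S := blk x n '' pos n M i) hν1
    ((pos_finite n M i).image _) (N := N) (fun j hj => ⟨i + j, ⟨by omega, by omega⟩, rfl⟩)
  have h2 := mean_le hw N
  rw [Finset.sum_sub_distrib, Finset.sum_const, Finset.card_range, nsmul_eq_mul] at h2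
  have h3 : ((∑ i' ∈ Finset.range N, ret x n i ν i' : ℕ) : ℤ) ≤
      ((P * (N + 8 * ν) : ℕ) : ℤ) := by exact_mod_cast h1
  push_cast at h2 h3
  have hgoal : (4 * (n : ℤ)) * M ≤ ((P : ℤ) + (4 * K + 4)) * M + 40 * n ^ 2 := by
    have hM' : (M : ℤ) = N + 8 * ν + n - 1 := by omega
    have hM2 : 10 * (n : ℤ) + 1 ≤ M := by exact_mod_cast hM
    have hn' : (n : ℤ) = K + 1 + ν := by exact_mod_cast hν
    have hνn : (ν : ℤ) ≤ n := by omega
    have hν0 : (1 : ℤ) ≤ ν := by exact_mod_cast hν1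
    -- `(4 ν - P) Q ≤ 33 ν²`, `Q = N + 8 ν`
    have h5 : 4 * ((4 * (ν : ℤ) - P) * (N + 8 * ν)) ≤ 130 * ν ^ 2 := by nlinarith
    rcases le_or_gt (4 * (ν : ℤ)) P with h6 | h6
    · have : (4 * (n : ℤ) - (4 * K + 4)) * M ≤ P * M := by
        apply mul_le_mul_of_nonneg_right (by omega) (by positivity)
      nlinarith [sq_nonneg (n : ℤ)]
    · have h7 : 9 * (M : ℤ) ≤ 10 * (N + 8 * ν) := by omega
      have h8 : (4 * (ν : ℤ) - P) * (9 * M) ≤ (4 * (ν : ℤ) - P) * (10 * (N + 8 * ν)) :=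
        mul_le_mul_of_nonneg_left h7 (by omega)
      have h9 : (ν : ℤ) ^ 2 ≤ n ^ 2 := by nlinarith
      have h10 : (4 * (n : ℤ) - (P + (4 * K + 4))) * M = (4 * (ν : ℤ) - P) * M := by
        rw [hn']; ring
      nlinarith
  exact_mod_cast hgoal

/-- **Blocks up to sign, local form.** -/
theorem sign_exp4_loc {c e : ℕ → ℤ} {g : ℕ} (hg : ∀ i, ∃ j < g, e (i + j) ≠ 0) {K : ℕ}
    (H : ∀ (i l s : ℕ) (τ : ℤ), (τ = 1 ∨ τ = -1) → 1 ≤ l →
      (∀ j < s, c (i + j) = c (i + l + j) ∧ e (i + l + j) = τ * e (i + j)) → 2 * s < l + K)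
    (n M i : ℕ) :
    4 * n * M ≤ ((signBlock c e n '' pos n M i).ncard + (4 * K + 4 + 4 * g)) * M + 40 * n ^ 2 := by
  classical
  rcases Nat.lt_or_ge n g with hn | hn
  · have : 4 * n * M ≤ (4 * g) * M := Nat.mul_le_mul_right _ (by omega)
    nlinarith
  rcases Nat.lt_or_ge M (10 * n + 1) with hM | hM
  · have : 4 * n * M ≤ 4 * n * (10 * n) := Nat.mul_le_mul_left _ (by omega)
    nlinarith
  obtain ⟨m, rfl⟩ : ∃ m, n = m + g := ⟨n - g, by omega⟩
  obtain ⟨M', rfl⟩ : ∃ M', M = M' + g := ⟨M - g, by omega⟩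
  set T := signBlock c e (m + g) '' pos (m + g) (M' + g) i with hT
  have hTfin : T.Finite := (pos_finite _ _ _).image _
  have hsub : (blk (rel c e) m '' pos m M' (i + g)).ncard ≤ T.ncard := by
    have h' : ∀ S : Set (Fin (m + g) → ℤ × ℤ), ∃ j, S ∈ T → signBlock c e (m + g) j = S := by
      intro S
      by_cases hS : S ∈ T
      · obtain ⟨j, _, hj⟩ := hS
        exact ⟨j, fun _ => hj⟩
      · exact ⟨0, fun h' => absurd h' hS⟩
    choose f hf using h'
    have h1 : blk (rel c e) m '' pos m M' (i + g) ⊆ (fun S => blk (rel c e) m (f S + g)) '' T := by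
      rintro _ ⟨j, hj, rfl⟩
      have hj1 := hj.1
      have hj2 := hj.2
      have hmem : signBlock c e (m + g) (j - g) ∈ T := ⟨j - g, ⟨by omega, by omega⟩, rfl⟩
      refine ⟨signBlock c e (m + g) (j - g), hmem, ?_⟩
      have := rel_det (n := m) hg (hf _ hmem)
      simp only
      rw [this, show j - g + g = j by omega]
    exact (Set.ncard_le_ncard h1 (hTfin.image _)).trans (Set.ncard_image_le hTfin)
  have h1 := exp4_loc (x := rel c e) (K := K) (by
    intro i l s hl h
    obtain ⟨τ, hτ, h'⟩ := rel_run h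
    exact H i l s τ hτ hl h') m M' (i + g)
  set P := (blk (rel c e) m '' pos m M' (i + g)).ncard with hP
  have hgoal : (4 * ((m : ℤ) + g)) * (M' + g) ≤
      ((T.ncard : ℤ) + (4 * K + 4 + 4 * g)) * (M' + g) + 40 * ((m : ℤ) + g) ^ 2 := by
    have h2 : (4 * (m : ℤ)) * M' ≤ ((P : ℤ) + (4 * K + 4)) * M' + 40 * m ^ 2 := by
      exact_mod_cast h1
    have h3 : (P : ℤ) ≤ T.ncard := by exact_mod_cast hsub
    have hm0 : (0 : ℤ) ≤ m := by positivity
    have hg0 : (0 : ℤ) ≤ g := by positivity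
    have hM0 : (0 : ℤ) ≤ M' := by positivity
    have hT0 : (0 : ℤ) ≤ T.ncard := by positivity
    have hK0 : (0 : ℤ) ≤ K := by positivity
    have h4 : (P : ℤ) * M' ≤ T.ncard * M' := mul_le_mul_of_nonneg_right h3 hM0
    have h5 : (4 * (m : ℤ) - T.ncard - (4 * K + 4)) * g ≤ 4 * m * g :=
      mul_le_mul_of_nonneg_right (by omega) hg0
    nlinarith [mul_nonneg hm0 hg0, sq_nonneg (g : ℤ)]
  exact_mod_cast hgoal

end Pool.Agent.H95.LX
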