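import Pool.Agent.H95.LX.Tree

/-!
# Products of three words contain large repetitions

If every run of `d` satisfies `2 s < l + K` then no block of `d` is a product of `13` words of
length at least `2 K` of which at most three are different.
-/

set_option autoImplicit false

namespace Pool.Agent.H95.LX

variable {d : ℕ → ℤ} {W : Fin 3 → ℕ → ℤ} {w : Fin 3 → ℕ} {c : ℕ → Fin 3} {p : ℕ → ℕ}

/-- positions -/
lemma prod_pos (h : ∀ j < 13, p (j + 1) = p j + w (c j) ∧ ∀ t < w (c j), d (p j + t) = W (c j) t)
    (j t : ℕ) (hj : j + t ≤ 13) : p (j + t) = p j + ∑ i ∈ Finset.range t, w (c (j + i)) := by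
  induction t with
  | zero => simp
  | succ t ih =>
    rw [show j + (t + 1) = j + t + 1 by ring, (h (j + t) (by omega)).1, ih (by omega),
      Finset.sum_range_succ]
    ring

/-- A repetition of the word `c` gives a run of `d`. -/
lemma prod_run (h : ∀ j < 13, p (j + 1) = p j + w (c j) ∧ ∀ t < w (c j), d (p j + t) = W (c j) t)
    (j L t : ℕ) (hj : j + L + t ≤ 13) (hc : ∀ i < t, c (j + i) = c (j + L + i)) :
    ∀ u < ∑ i ∈ Finset.range t, w (c (j + i)),
      d (p j + ∑ i ∈ Finset.range L, w (c (j + i)) + u) = d (p j + u) := by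
  rw [← prod_pos h j L (by omega)]
  induction t with
  | zero => simp
  | succ t ih =>
    intro u hu
    rw [Finset.sum_range_succ] at hu
    have ih' := ih (by omega) (fun i hi => hc i (by omega))
    rcases Nat.lt_or_ge u (∑ i ∈ Finset.range t, w (c (j + i))) with hlt | hge
    · exact ih' u hlt
    · obtain ⟨v, rfl⟩ := Nat.exists_eq_add_of_le hge
      have hv : v < w (c (j + t)) := by omega
      have e1 : p (j + t) = p j + ∑ i ∈ Finset.range t, w (c (j + i)) :=
        prod_pos h j t (by omega)
      have e2 : p (j + L + t) = p (j + L) + ∑ i ∈ Finset.range t, w (c (j + i)) := by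
        rw [prod_pos h (j + L) t (by omega)]
        congr 1
        apply Finset.sum_congr rfl
        intro i hi
        rw [hc i (by have := Finset.mem_range.1 hi; omega)]
      rw [show p (j + L) + (∑ i ∈ Finset.range t, w (c (j + i)) + v) = p (j + L + t) + v by
        rw [e2]; ring, show p j + (∑ i ∈ Finset.range t, w (c (j + i)) + v) = p (j + t) + v by
        rw [e1]; ring]
      rw [(h (j + t) (by omega)).2 v hv]
      have hc' := hc t (by omega)
      rw [hc'] at hv
      rw [(h (j + L + t) (by omega)).2 v hv, hc']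

/-- **No products of three words.** -/
theorem no_three {K : ℕ} (hK : 1 ≤ K)
    (hrun : ∀ i l s : ℕ, 1 ≤ l → (∀ u < s, d (i + l + u) = d (i + u)) → 2 * s < l + K)
    (hw : ∀ a, 2 * K ≤ w a) :
    ¬ ∀ j < 13, p (j + 1) = p j + w (c j) ∧ ∀ t < w (c j), d (p j + t) = W (c j) t := by
  intro h
  have H : ∀ j L t : ℕ, 1 ≤ L → j + L + t ≤ 13 → (∀ i < t, c (j + i) = c (j + L + i)) →
      2 * ∑ i ∈ Finset.range t, w (c (j + i)) < ∑ i ∈ Finset.range L, w (c (j + i)) + K := by
    intro j L t hL hj hc
    refine hrun (p j) _ _ ?_ (prod_run h j L t hj hc)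
    obtain ⟨L', rfl⟩ := Nat.exists_eq_add_of_le' hL
    rw [Finset.sum_range_succ]
    have := hw (c (j + L'))
    omega
  have hne : c 0 ≠ c 1 := by
    intro he
    have r := H 0 1 1 le_rfl (by norm_num) (by intro i hi; interval_cases i; simpa using he)
    simp at r
    have := hw (c 0)
    omega
  obtain ⟨z, hz⟩ : ∃ z : Fin 3, ∀ x : Fin 3, x = c 0 ∨ x = c 1 ∨ x = z := by
    generalize c 0 = a at hne
    generalize c 1 = b at hne
    revert a b
    decide
  exact three_tree c w K hK (c 0) (c 1) z hz (hw _) (hw _) (hw _) H rfl rfl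

end Pool.Agent.H95.LX
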