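import Mathlib

/-!
# Words over three letters and weighted exponents

A word with 13 letters over an alphabet of three letters with weights `w a ≥ 2 K` has a repeated
factor of weight `s`, the two occurrences being at the weighted distance `l`, with `2 s ≥ l + K`
(the proof is a search tree).
-/

set_option autoImplicit false
set_option maxRecDepth 4000

namespace Pool.Agent.H95.LX

lemma three_tree (c : ℕ → Fin 3) (w : Fin 3 → ℕ) (K : ℕ) (hK : 1 ≤ K) (a b z : Fin 3)
    (hall : ∀ x : Fin 3, x = a ∨ x = b ∨ x = z)
    (ha : 2 * K ≤ w a) (hb : 2 * K ≤ w b) (hz : 2 * K ≤ w z)
    (H : ∀ j L t : ℕ, 1 ≤ L → j + L + t ≤ 13 → (∀ i < t, c (j + i) = c (j + L + i)) →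
      2 * ∑ i ∈ Finset.range t, w (c (j + i)) < ∑ i ∈ Finset.range L, w (c (j + i)) + K)
    (h0 : c 0 = a) (h1 : c 1 = b) : False := by
  rcases hall (c 2) with h2 | h2 | h2
  · rcases hall (c 3) with h3 | h3 | h3
    · have r0 := H 2 1 1 (by norm_num) (by norm_num) (by intro i hi; interval_cases i <;> simp [h0, h1, h2, h3])
      simp [Finset.sum_range_succ, h0, h1, h2, h3] at r0
      omega
    · have r0 := H 0 2 2 (by norm_num) (by norm_num) (by intro i hi; interval_cases i <;> simp [h0, h1, h2, h3])
      simp [Finset.sum_range_succ, h0, h1, h2, h3] at r0
      omega
    · rcases hall (c 4) with h4 | h4 | h4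
      · rcases hall (c 5) with h5 | h5 | h5
        · have r0 := H 4 1 1 (by norm_num) (by norm_num) (by intro i hi; interval_cases i <;> simp [h0, h1, h2, h3, h4, h5])
          simp [Finset.sum_range_succ, h0, h1, h2, h3, h4, h5] at r0
          omega
        · rcases hall (c 6) with h6 | h6 | h6
          · rcases hall (c 7) with h7 | h7 | h7
            · have r0 := H 6 1 1 (by norm_num) (by norm_num) (by intro i hi; interval_cases i <;> simp [h0, h1, h2, h3, h4, h5, h6, h7])
              simp [Finset.sum_range_succ, h0, h1, h2, h3, h4, h5, h6, h7] at r0
              omega
            · have r0 := H 4 2 2 (by norm_num) (by norm_num) (by intro i hi; interval_cases i <;> simp [h0, h1, h2, h3, h4, h5, h6, h7])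
              simp [Finset.sum_range_succ, h0, h1, h2, h3, h4, h5, h6, h7] at r0
              omega
            · have r0 := H 0 4 4 (by norm_num) (by norm_num) (by intro i hi; interval_cases i <;> simp [h0, h1, h2, h3, h4, h5, h6, h7])
              simp [Finset.sum_range_succ, h0, h1, h2, h3, h4, h5, h6, h7] at r0
              omega
          · have r0 := H 5 1 1 (by norm_num) (by norm_num) (by intro i hi; interval_cases i <;> simp [h0, h1, h2, h3, h4, h5, h6])
            simp [Finset.sum_range_succ, h0, h1, h2, h3, h4, h5, h6] at r0
            omega
          · rcases hall (c 7) with h7 | h7 | h7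
            · have r0 := H 3 3 2 (by norm_num) (by norm_num) (by intro i hi; interval_cases i <;> simp [h0, h1, h2, h3, h4, h5, h6, h7])
              simp [Finset.sum_range_succ, h0, h1, h2, h3, h4, h5, h6, h7] at r0
              have r1 := H 0 4 2 (by norm_num) (by norm_num) (by intro i hi; interval_cases i <;> simp [h0, h1, h2, h3, h4, h5, h6, h7])
              simp [Finset.sum_range_succ, h0, h1, h2, h3, h4, h5, h6, h7] at r1
              omega
            · rcases hall (c 8) with h8 | h8 | h8
              · rcases hall (c 9) with h9 | h9 | h9
                · have r0 := H 8 1 1 (by norm_num) (by norm_num) (by intro i hi; interval_cases i <;> simp [h0, h1, h2, h3, h4, h5, h6, h7, h8, h9])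
                  simp [Finset.sum_range_succ, h0, h1, h2, h3, h4, h5, h6, h7, h8, h9] at r0
                  omega
                · rcases hall (c 10) with h10 | h10 | h10
                  · have r0 := H 7 2 2 (by norm_num) (by norm_num) (by intro i hi; interval_cases i <;> simp [h0, h1, h2, h3, h4, h5, h6, h7, h8, h9, h10])
                    simp [Finset.sum_range_succ, h0, h1, h2, h3, h4, h5, h6, h7, h8, h9, h10] at r0
                    omega
                  · have r0 := H 9 1 1 (by norm_num) (by norm_num) (by intro i hi; interval_cases i <;> simp [h0, h1, h2, h3, h4, h5, h6, h7, h8, h9, h10])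
                    simp [Finset.sum_range_succ, h0, h1, h2, h3, h4, h5, h6, h7, h8, h9, h10] at r0
                    omega
                  · have r0 := H 4 4 3 (by norm_num) (by norm_num) (by intro i hi; interval_cases i <;> simp [h0, h1, h2, h3, h4, h5, h6, h7, h8, h9, h10])
                    simp [Finset.sum_range_succ, h0, h1, h2, h3, h4, h5, h6, h7, h8, h9, h10] at r0
                    omega
                · rcases hall (c 10) with h10 | h10 | h10
                  · have r0 := H 1 6 4 (by norm_num) (by norm_num) (by intro i hi; interval_cases i <;> simp [h0, h1, h2, h3, h4, h5, h6, h7, h8, h9, h10])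
                    simp [Finset.sum_range_succ, h0, h1, h2, h3, h4, h5, h6, h7, h8, h9, h10] at r0
                    omega
                  · have r0 := H 0 2 1 (by norm_num) (by norm_num) (by intro i hi; interval_cases i <;> simp [h0, h1, h2, h3, h4, h5, h6, h7, h8, h9, h10])
                    simp [Finset.sum_range_succ, h0, h1, h2, h3, h4, h5, h6, h7, h8, h9, h10] at r0
                    have r1 := H 6 3 2 (by norm_num) (by norm_num) (by intro i hi; interval_cases i <;> simp [h0, h1, h2, h3, h4, h5, h6, h7, h8, h9, h10])
                    simp [Finset.sum_range_succ, h0, h1, h2, h3, h4, h5, h6, h7, h8, h9, h10] at r1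
                    omega
                  · have r0 := H 9 1 1 (by norm_num) (by norm_num) (by intro i hi; interval_cases i <;> simp [h0, h1, h2, h3, h4, h5, h6, h7, h8, h9, h10])
                    simp [Finset.sum_range_succ, h0, h1, h2, h3, h4, h5, h6, h7, h8, h9, h10] at r0
                    omega
              · have r0 := H 7 1 1 (by norm_num) (by norm_num) (by intro i hi; interval_cases i <;> simp [h0, h1, h2, h3, h4, h5, h6, h7, h8])
                simp [Finset.sum_range_succ, h0, h1, h2, h3, h4, h5, h6, h7, h8] at r0
                omega
              · have r0 := H 5 2 2 (by norm_num) (by norm_num) (by intro i hi; interval_cases i <;> simp [h0, h1, h2, h3, h4, h5, h6, h7, h8])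
                simp [Finset.sum_range_succ, h0, h1, h2, h3, h4, h5, h6, h7, h8] at r0
                omega
            · have r0 := H 6 1 1 (by norm_num) (by norm_num) (by intro i hi; interval_cases i <;> simp [h0, h1, h2, h3, h4, h5, h6, h7])
              simp [Finset.sum_range_succ, h0, h1, h2, h3, h4, h5, h6, h7] at r0
              omega
        · have r0 := H 2 2 2 (by norm_num) (by norm_num) (by intro i hi; interval_cases i <;> simp [h0, h1, h2, h3, h4, h5])
          simp [Finset.sum_range_succ, h0, h1, h2, h3, h4, h5] at r0
          omega
      · rcases hall (c 5) with h5 | h5 | h5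
        · rcases hall (c 6) with h6 | h6 | h6
          · have r0 := H 5 1 1 (by norm_num) (by norm_num) (by intro i hi; interval_cases i <;> simp [h0, h1, h2, h3, h4, h5, h6])
            simp [Finset.sum_range_succ, h0, h1, h2, h3, h4, h5, h6] at r0
            omega
          · rcases hall (c 7) with h7 | h7 | h7
            · have r0 := H 4 2 2 (by norm_num) (by norm_num) (by intro i hi; interval_cases i <;> simp [h0, h1, h2, h3, h4, h5, h6, h7])
              simp [Finset.sum_range_succ, h0, h1, h2, h3, h4, h5, h6, h7] at r0
              omega
            · have r0 := H 6 1 1 (by norm_num) (by norm_num) (by intro i hi; interval_cases i <;> simp [h0, h1, h2, h3, h4, h5, h6, h7])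
              simp [Finset.sum_range_succ, h0, h1, h2, h3, h4, h5, h6, h7] at r0
              omega
            · rcases hall (c 8) with h8 | h8 | h8
              · rcases hall (c 9) with h9 | h9 | h9
                · have r0 := H 8 1 1 (by norm_num) (by norm_num) (by intro i hi; interval_cases i <;> simp [h0, h1, h2, h3, h4, h5, h6, h7, h8, h9])
                  simp [Finset.sum_range_succ, h0, h1, h2, h3, h4, h5, h6, h7, h8, h9] at r0
                  omega
                · rcases hall (c 10) with h10 | h10 | h10
                  · rcases hall (c 11) with h11 | h11 | h11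
                    · have r0 := H 10 1 1 (by norm_num) (by norm_num) (by intro i hi; interval_cases i <;> simp [h0, h1, h2, h3, h4, h5, h6, h7, h8, h9, h10, h11])
                      simp [Finset.sum_range_succ, h0, h1, h2, h3, h4, h5, h6, h7, h8, h9, h10, h11] at r0
                      omega
                    · have r0 := H 8 2 2 (by norm_num) (by norm_num) (by intro i hi; interval_cases i <;> simp [h0, h1, h2, h3, h4, h5, h6, h7, h8, h9, h10, h11])
                      simp [Finset.sum_range_succ, h0, h1, h2, h3, h4, h5, h6, h7, h8, h9, h10, h11] at r0
                      omega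
                    · rcases hall (c 12) with h12 | h12 | h12
                      · have r0 := H 1 3 2 (by norm_num) (by norm_num) (by intro i hi; interval_cases i <;> simp [h0, h1, h2, h3, h4, h5, h6, h7, h8, h9, h10, h11, h12])
                        simp [Finset.sum_range_succ, h0, h1, h2, h3, h4, h5, h6, h7, h8, h9, h10, h11, h12] at r0
                        have r1 := H 7 4 2 (by norm_num) (by norm_num) (by intro i hi; interval_cases i <;> simp [h0, h1, h2, h3, h4, h5, h6, h7, h8, h9, h10, h11, h12])
                        simp [Finset.sum_range_succ, h0, h1, h2, h3, h4, h5, h6, h7, h8, h9, h10, h11, h12] at r1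
                        omega
                      · have r0 := H 0 8 5 (by norm_num) (by norm_num) (by intro i hi; interval_cases i <;> simp [h0, h1, h2, h3, h4, h5, h6, h7, h8, h9, h10, h11, h12])
                        simp [Finset.sum_range_succ, h0, h1, h2, h3, h4, h5, h6, h7, h8, h9, h10, h11, h12] at r0
                        omega
                      · have r0 := H 11 1 1 (by norm_num) (by norm_num) (by intro i hi; interval_cases i <;> simp [h0, h1, h2, h3, h4, h5, h6, h7, h8, h9, h10, h11, h12])
                        simp [Finset.sum_range_succ, h0, h1, h2, h3, h4, h5, h6, h7, h8, h9, h10, h11, h12] at r0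
                        omega
                  · have r0 := H 9 1 1 (by norm_num) (by norm_num) (by intro i hi; interval_cases i <;> simp [h0, h1, h2, h3, h4, h5, h6, h7, h8, h9, h10])
                    simp [Finset.sum_range_succ, h0, h1, h2, h3, h4, h5, h6, h7, h8, h9, h10] at r0
                    omega
                  · have r0 := H 5 3 3 (by norm_num) (by norm_num) (by intro i hi; interval_cases i <;> simp [h0, h1, h2, h3, h4, h5, h6, h7, h8, h9, h10])
                    simp [Finset.sum_range_succ, h0, h1, h2, h3, h4, h5, h6, h7, h8, h9, h10] at r0
                    omega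
                · have r0 := H 7 2 1 (by norm_num) (by norm_num) (by intro i hi; interval_cases i <;> simp [h0, h1, h2, h3, h4, h5, h6, h7, h8, h9])
                  simp [Finset.sum_range_succ, h0, h1, h2, h3, h4, h5, h6, h7, h8, h9] at r0
                  have r1 := H 1 3 2 (by norm_num) (by norm_num) (by intro i hi; interval_cases i <;> simp [h0, h1, h2, h3, h4, h5, h6, h7, h8, h9])
                  simp [Finset.sum_range_succ, h0, h1, h2, h3, h4, h5, h6, h7, h8, h9] at r1
                  omega
              · have r0 := H 1 3 2 (by norm_num) (by norm_num) (by intro i hi; interval_cases i <;> simp [h0, h1, h2, h3, h4, h5, h6, h7, h8])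
                simp [Finset.sum_range_succ, h0, h1, h2, h3, h4, h5, h6, h7, h8] at r0
                have r1 := H 3 4 2 (by norm_num) (by norm_num) (by intro i hi; interval_cases i <;> simp [h0, h1, h2, h3, h4, h5, h6, h7, h8])
                simp [Finset.sum_range_succ, h0, h1, h2, h3, h4, h5, h6, h7, h8] at r1
                omega
              · have r0 := H 7 1 1 (by norm_num) (by norm_num) (by intro i hi; interval_cases i <;> simp [h0, h1, h2, h3, h4, h5, h6, h7, h8])
                simp [Finset.sum_range_succ, h0, h1, h2, h3, h4, h5, h6, h7, h8] at r0
                omega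
          · have r0 := H 1 3 3 (by norm_num) (by norm_num) (by intro i hi; interval_cases i <;> simp [h0, h1, h2, h3, h4, h5, h6])
            simp [Finset.sum_range_succ, h0, h1, h2, h3, h4, h5, h6] at r0
            omega
        · have r0 := H 4 1 1 (by norm_num) (by norm_num) (by intro i hi; interval_cases i <;> simp [h0, h1, h2, h3, h4, h5])
          simp [Finset.sum_range_succ, h0, h1, h2, h3, h4, h5] at r0
          omega
        · rcases hall (c 6) with h6 | h6 | h6
          · rcases hall (c 7) with h7 | h7 | h7
            · have r0 := H 6 1 1 (by norm_num) (by norm_num) (by intro i hi; interval_cases i <;> simp [h0, h1, h2, h3, h4, h5, h6, h7])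
              simp [Finset.sum_range_succ, h0, h1, h2, h3, h4, h5, h6, h7] at r0
              omega
            · rcases hall (c 8) with h8 | h8 | h8
              · rcases hall (c 9) with h9 | h9 | h9
                · have r0 := H 8 1 1 (by norm_num) (by norm_num) (by intro i hi; interval_cases i <;> simp [h0, h1, h2, h3, h4, h5, h6, h7, h8, h9])
                  simp [Finset.sum_range_succ, h0, h1, h2, h3, h4, h5, h6, h7, h8, h9] at r0
                  omega
                · have r0 := H 6 2 2 (by norm_num) (by norm_num) (by intro i hi; interval_cases i <;> simp [h0, h1, h2, h3, h4, h5, h6, h7, h8, h9])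
                  simp [Finset.sum_range_succ, h0, h1, h2, h3, h4, h5, h6, h7, h8, h9] at r0
                  omega
                · have r0 := H 0 6 4 (by norm_num) (by norm_num) (by intro i hi; interval_cases i <;> simp [h0, h1, h2, h3, h4, h5, h6, h7, h8, h9])
                  simp [Finset.sum_range_succ, h0, h1, h2, h3, h4, h5, h6, h7, h8, h9] at r0
                  omega
              · have r0 := H 7 1 1 (by norm_num) (by norm_num) (by intro i hi; interval_cases i <;> simp [h0, h1, h2, h3, h4, h5, h6, h7, h8])
                simp [Finset.sum_range_succ, h0, h1, h2, h3, h4, h5, h6, h7, h8] at r0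
                omega
              · have r0 := H 0 2 1 (by norm_num) (by norm_num) (by intro i hi; interval_cases i <;> simp [h0, h1, h2, h3, h4, h5, h6, h7, h8])
                simp [Finset.sum_range_succ, h0, h1, h2, h3, h4, h5, h6, h7, h8] at r0
                have r1 := H 4 3 2 (by norm_num) (by norm_num) (by intro i hi; interval_cases i <;> simp [h0, h1, h2, h3, h4, h5, h6, h7, h8])
                simp [Finset.sum_range_succ, h0, h1, h2, h3, h4, h5, h6, h7, h8] at r1
                omega
            · rcases hall (c 8) with h8 | h8 | h8
              · have r0 := H 5 2 2 (by norm_num) (by norm_num) (by intro i hi; interval_cases i <;> simp [h0, h1, h2, h3, h4, h5, h6, h7, h8])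
                simp [Finset.sum_range_succ, h0, h1, h2, h3, h4, h5, h6, h7, h8] at r0
                omega
              · have r0 := H 2 4 3 (by norm_num) (by norm_num) (by intro i hi; interval_cases i <;> simp [h0, h1, h2, h3, h4, h5, h6, h7, h8])
                simp [Finset.sum_range_succ, h0, h1, h2, h3, h4, h5, h6, h7, h8] at r0
                omega
              · have r0 := H 7 1 1 (by norm_num) (by norm_num) (by intro i hi; interval_cases i <;> simp [h0, h1, h2, h3, h4, h5, h6, h7, h8])
                simp [Finset.sum_range_succ, h0, h1, h2, h3, h4, h5, h6, h7, h8] at r0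
                omega
          · have r0 := H 3 2 2 (by norm_num) (by norm_num) (by intro i hi; interval_cases i <;> simp [h0, h1, h2, h3, h4, h5, h6])
            simp [Finset.sum_range_succ, h0, h1, h2, h3, h4, h5, h6] at r0
            omega
          · have r0 := H 5 1 1 (by norm_num) (by norm_num) (by intro i hi; interval_cases i <;> simp [h0, h1, h2, h3, h4, h5, h6])
            simp [Finset.sum_range_succ, h0, h1, h2, h3, h4, h5, h6] at r0
            omega
      · have r0 := H 3 1 1 (by norm_num) (by norm_num) (by intro i hi; interval_cases i <;> simp [h0, h1, h2, h3, h4])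
        simp [Finset.sum_range_succ, h0, h1, h2, h3, h4] at r0
        omega
  · have r0 := H 1 1 1 (by norm_num) (by norm_num) (by intro i hi; interval_cases i <;> simp [h0, h1, h2])
    simp [Finset.sum_range_succ, h0, h1, h2] at r0
    omega
  · rcases hall (c 3) with h3 | h3 | h3
    · rcases hall (c 4) with h4 | h4 | h4
      · have r0 := H 3 1 1 (by norm_num) (by norm_num) (by intro i hi; interval_cases i <;> simp [h0, h1, h2, h3, h4])
        simp [Finset.sum_range_succ, h0, h1, h2, h3, h4] at r0
        omega
      · rcases hall (c 5) with h5 | h5 | h5
        · rcases hall (c 6) with h6 | h6 | h6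
          · have r0 := H 5 1 1 (by norm_num) (by norm_num) (by intro i hi; interval_cases i <;> simp [h0, h1, h2, h3, h4, h5, h6])
            simp [Finset.sum_range_succ, h0, h1, h2, h3, h4, h5, h6] at r0
            omega
          · have r0 := H 3 2 2 (by norm_num) (by norm_num) (by intro i hi; interval_cases i <;> simp [h0, h1, h2, h3, h4, h5, h6])
            simp [Finset.sum_range_succ, h0, h1, h2, h3, h4, h5, h6] at r0
            omega
          · rcases hall (c 7) with h7 | h7 | h7
            · have r0 := H 0 3 2 (by norm_num) (by norm_num) (by intro i hi; interval_cases i <;> simp [h0, h1, h2, h3, h4, h5, h6, h7])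
              simp [Finset.sum_range_succ, h0, h1, h2, h3, h4, h5, h6, h7] at r0
              have r1 := H 2 4 2 (by norm_num) (by norm_num) (by intro i hi; interval_cases i <;> simp [h0, h1, h2, h3, h4, h5, h6, h7])
              simp [Finset.sum_range_succ, h0, h1, h2, h3, h4, h5, h6, h7] at r1
              omega
            · rcases hall (c 8) with h8 | h8 | h8
              · rcases hall (c 9) with h9 | h9 | h9
                · have r0 := H 8 1 1 (by norm_num) (by norm_num) (by intro i hi; interval_cases i <;> simp [h0, h1, h2, h3, h4, h5, h6, h7, h8, h9])
                  simp [Finset.sum_range_succ, h0, h1, h2, h3, h4, h5, h6, h7, h8, h9] at r0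
                  omega
                · rcases hall (c 10) with h10 | h10 | h10
                  · have r0 := H 7 2 2 (by norm_num) (by norm_num) (by intro i hi; interval_cases i <;> simp [h0, h1, h2, h3, h4, h5, h6, h7, h8, h9, h10])
                    simp [Finset.sum_range_succ, h0, h1, h2, h3, h4, h5, h6, h7, h8, h9, h10] at r0
                    omega
                  · have r0 := H 9 1 1 (by norm_num) (by norm_num) (by intro i hi; interval_cases i <;> simp [h0, h1, h2, h3, h4, h5, h6, h7, h8, h9, h10])
                    simp [Finset.sum_range_succ, h0, h1, h2, h3, h4, h5, h6, h7, h8, h9, h10] at r0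
                    omega
                  · rcases hall (c 11) with h11 | h11 | h11
                    · rcases hall (c 12) with h12 | h12 | h12
                      · have r0 := H 11 1 1 (by norm_num) (by norm_num) (by intro i hi; interval_cases i <;> simp [h0, h1, h2, h3, h4, h5, h6, h7, h8, h9, h10, h11, h12])
                        simp [Finset.sum_range_succ, h0, h1, h2, h3, h4, h5, h6, h7, h8, h9, h10, h11, h12] at r0
                        omega
                      · have r0 := H 0 8 5 (by norm_num) (by norm_num) (by intro i hi; interval_cases i <;> simp [h0, h1, h2, h3, h4, h5, h6, h7, h8, h9, h10, h11, h12])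
                        simp [Finset.sum_range_succ, h0, h1, h2, h3, h4, h5, h6, h7, h8, h9, h10, h11, h12] at r0
                        omega
                      · have r0 := H 10 2 1 (by norm_num) (by norm_num) (by intro i hi; interval_cases i <;> simp [h0, h1, h2, h3, h4, h5, h6, h7, h8, h9, h10, h11, h12])
                        simp [Finset.sum_range_succ, h0, h1, h2, h3, h4, h5, h6, h7, h8, h9, h10, h11, h12] at r0
                        have r1 := H 0 3 2 (by norm_num) (by norm_num) (by intro i hi; interval_cases i <;> simp [h0, h1, h2, h3, h4, h5, h6, h7, h8, h9, h10, h11, h12])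
                        simp [Finset.sum_range_succ, h0, h1, h2, h3, h4, h5, h6, h7, h8, h9, h10, h11, h12] at r1
                        omega
                    · have r0 := H 0 3 2 (by norm_num) (by norm_num) (by intro i hi; interval_cases i <;> simp [h0, h1, h2, h3, h4, h5, h6, h7, h8, h9, h10, h11])
                      simp [Finset.sum_range_succ, h0, h1, h2, h3, h4, h5, h6, h7, h8, h9, h10, h11] at r0
                      have r1 := H 6 4 2 (by norm_num) (by norm_num) (by intro i hi; interval_cases i <;> simp [h0, h1, h2, h3, h4, h5, h6, h7, h8, h9, h10, h11])
                      simp [Finset.sum_range_succ, h0, h1, h2, h3, h4, h5, h6, h7, h8, h9, h10, h11] at r1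
                      omega
                    · have r0 := H 10 1 1 (by norm_num) (by norm_num) (by intro i hi; interval_cases i <;> simp [h0, h1, h2, h3, h4, h5, h6, h7, h8, h9, h10, h11])
                      simp [Finset.sum_range_succ, h0, h1, h2, h3, h4, h5, h6, h7, h8, h9, h10, h11] at r0
                      omega
                · have r0 := H 4 3 3 (by norm_num) (by norm_num) (by intro i hi; interval_cases i <;> simp [h0, h1, h2, h3, h4, h5, h6, h7, h8, h9])
                  simp [Finset.sum_range_succ, h0, h1, h2, h3, h4, h5, h6, h7, h8, h9] at r0
                  omega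
              · have r0 := H 7 1 1 (by norm_num) (by norm_num) (by intro i hi; interval_cases i <;> simp [h0, h1, h2, h3, h4, h5, h6, h7, h8])
                simp [Finset.sum_range_succ, h0, h1, h2, h3, h4, h5, h6, h7, h8] at r0
                omega
              · have r0 := H 6 2 1 (by norm_num) (by norm_num) (by intro i hi; interval_cases i <;> simp [h0, h1, h2, h3, h4, h5, h6, h7, h8])
                simp [Finset.sum_range_succ, h0, h1, h2, h3, h4, h5, h6, h7, h8] at r0
                have r1 := H 0 3 2 (by norm_num) (by norm_num) (by intro i hi; interval_cases i <;> simp [h0, h1, h2, h3, h4, h5, h6, h7, h8])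
                simp [Finset.sum_range_succ, h0, h1, h2, h3, h4, h5, h6, h7, h8] at r1
                omega
            · have r0 := H 6 1 1 (by norm_num) (by norm_num) (by intro i hi; interval_cases i <;> simp [h0, h1, h2, h3, h4, h5, h6, h7])
              simp [Finset.sum_range_succ, h0, h1, h2, h3, h4, h5, h6, h7] at r0
              omega
        · have r0 := H 4 1 1 (by norm_num) (by norm_num) (by intro i hi; interval_cases i <;> simp [h0, h1, h2, h3, h4, h5])
          simp [Finset.sum_range_succ, h0, h1, h2, h3, h4, h5] at r0
          omega
        · have r0 := H 0 3 3 (by norm_num) (by norm_num) (by intro i hi; interval_cases i <;> simp [h0, h1, h2, h3, h4, h5])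
          simp [Finset.sum_range_succ, h0, h1, h2, h3, h4, h5] at r0
          omega
      · rcases hall (c 5) with h5 | h5 | h5
        · have r0 := H 2 2 2 (by norm_num) (by norm_num) (by intro i hi; interval_cases i <;> simp [h0, h1, h2, h3, h4, h5])
          simp [Finset.sum_range_succ, h0, h1, h2, h3, h4, h5] at r0
          omega
        · rcases hall (c 6) with h6 | h6 | h6
          · rcases hall (c 7) with h7 | h7 | h7
            · have r0 := H 6 1 1 (by norm_num) (by norm_num) (by intro i hi; interval_cases i <;> simp [h0, h1, h2, h3, h4, h5, h6, h7])
              simp [Finset.sum_range_succ, h0, h1, h2, h3, h4, h5, h6, h7] at r0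
              omega
            · rcases hall (c 8) with h8 | h8 | h8
              · have r0 := H 5 2 2 (by norm_num) (by norm_num) (by intro i hi; interval_cases i <;> simp [h0, h1, h2, h3, h4, h5, h6, h7, h8])
                simp [Finset.sum_range_succ, h0, h1, h2, h3, h4, h5, h6, h7, h8] at r0
                omega
              · have r0 := H 7 1 1 (by norm_num) (by norm_num) (by intro i hi; interval_cases i <;> simp [h0, h1, h2, h3, h4, h5, h6, h7, h8])
                simp [Finset.sum_range_succ, h0, h1, h2, h3, h4, h5, h6, h7, h8] at r0
                omega
              · rcases hall (c 9) with h9 | h9 | h9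
                · have r0 := H 0 6 4 (by norm_num) (by norm_num) (by intro i hi; interval_cases i <;> simp [h0, h1, h2, h3, h4, h5, h6, h7, h8, h9])
                  simp [Finset.sum_range_succ, h0, h1, h2, h3, h4, h5, h6, h7, h8, h9] at r0
                  omega
                · rcases hall (c 10) with h10 | h10 | h10
                  · have r0 := H 4 4 3 (by norm_num) (by norm_num) (by intro i hi; interval_cases i <;> simp [h0, h1, h2, h3, h4, h5, h6, h7, h8, h9, h10])
                    simp [Finset.sum_range_succ, h0, h1, h2, h3, h4, h5, h6, h7, h8, h9, h10] at r0
                    omega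
                  · have r0 := H 9 1 1 (by norm_num) (by norm_num) (by intro i hi; interval_cases i <;> simp [h0, h1, h2, h3, h4, h5, h6, h7, h8, h9, h10])
                    simp [Finset.sum_range_succ, h0, h1, h2, h3, h4, h5, h6, h7, h8, h9, h10] at r0
                    omega
                  · have r0 := H 7 2 2 (by norm_num) (by norm_num) (by intro i hi; interval_cases i <;> simp [h0, h1, h2, h3, h4, h5, h6, h7, h8, h9, h10])
                    simp [Finset.sum_range_succ, h0, h1, h2, h3, h4, h5, h6, h7, h8, h9, h10] at r0
                    omega
                · have r0 := H 8 1 1 (by norm_num) (by norm_num) (by intro i hi; interval_cases i <;> simp [h0, h1, h2, h3, h4, h5, h6, h7, h8, h9])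
                  simp [Finset.sum_range_succ, h0, h1, h2, h3, h4, h5, h6, h7, h8, h9] at r0
                  omega
            · rcases hall (c 8) with h8 | h8 | h8
              · rcases hall (c 9) with h9 | h9 | h9
                · have r0 := H 8 1 1 (by norm_num) (by norm_num) (by intro i hi; interval_cases i <;> simp [h0, h1, h2, h3, h4, h5, h6, h7, h8, h9])
                  simp [Finset.sum_range_succ, h0, h1, h2, h3, h4, h5, h6, h7, h8, h9] at r0
                  omega
                · rcases hall (c 10) with h10 | h10 | h10
                  · have r0 := H 3 3 2 (by norm_num) (by norm_num) (by intro i hi; interval_cases i <;> simp [h0, h1, h2, h3, h4, h5, h6, h7, h8, h9, h10])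
                    simp [Finset.sum_range_succ, h0, h1, h2, h3, h4, h5, h6, h7, h8, h9, h10] at r0
                    have r1 := H 5 4 2 (by norm_num) (by norm_num) (by intro i hi; interval_cases i <;> simp [h0, h1, h2, h3, h4, h5, h6, h7, h8, h9, h10])
                    simp [Finset.sum_range_succ, h0, h1, h2, h3, h4, h5, h6, h7, h8, h9, h10] at r1
                    omega
                  · have r0 := H 9 1 1 (by norm_num) (by norm_num) (by intro i hi; interval_cases i <;> simp [h0, h1, h2, h3, h4, h5, h6, h7, h8, h9, h10])
                    simp [Finset.sum_range_succ, h0, h1, h2, h3, h4, h5, h6, h7, h8, h9, h10] at r0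
                    omega
                  · rcases hall (c 11) with h11 | h11 | h11
                    · rcases hall (c 12) with h12 | h12 | h12
                      · have r0 := H 11 1 1 (by norm_num) (by norm_num) (by intro i hi; interval_cases i <;> simp [h0, h1, h2, h3, h4, h5, h6, h7, h8, h9, h10, h11, h12])
                        simp [Finset.sum_range_succ, h0, h1, h2, h3, h4, h5, h6, h7, h8, h9, h10, h11, h12] at r0
                        omega
                      · have r0 := H 7 3 3 (by norm_num) (by norm_num) (by intro i hi; interval_cases i <;> simp [h0, h1, h2, h3, h4, h5, h6, h7, h8, h9, h10, h11, h12])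
                        simp [Finset.sum_range_succ, h0, h1, h2, h3, h4, h5, h6, h7, h8, h9, h10, h11, h12] at r0
                        omega
                      · have r0 := H 0 8 5 (by norm_num) (by norm_num) (by intro i hi; interval_cases i <;> simp [h0, h1, h2, h3, h4, h5, h6, h7, h8, h9, h10, h11, h12])
                        simp [Finset.sum_range_succ, h0, h1, h2, h3, h4, h5, h6, h7, h8, h9, h10, h11, h12] at r0
                        omega
                    · have r0 := H 9 2 1 (by norm_num) (by norm_num) (by intro i hi; interval_cases i <;> simp [h0, h1, h2, h3, h4, h5, h6, h7, h8, h9, h10, h11])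
                      simp [Finset.sum_range_succ, h0, h1, h2, h3, h4, h5, h6, h7, h8, h9, h10, h11] at r0
                      have r1 := H 3 3 2 (by norm_num) (by norm_num) (by intro i hi; interval_cases i <;> simp [h0, h1, h2, h3, h4, h5, h6, h7, h8, h9, h10, h11])
                      simp [Finset.sum_range_succ, h0, h1, h2, h3, h4, h5, h6, h7, h8, h9, h10, h11] at r1
                      omega
                    · have r0 := H 10 1 1 (by norm_num) (by norm_num) (by intro i hi; interval_cases i <;> simp [h0, h1, h2, h3, h4, h5, h6, h7, h8, h9, h10, h11])
                      simp [Finset.sum_range_succ, h0, h1, h2, h3, h4, h5, h6, h7, h8, h9, h10, h11] at r0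
                      omega
                · have r0 := H 6 2 2 (by norm_num) (by norm_num) (by intro i hi; interval_cases i <;> simp [h0, h1, h2, h3, h4, h5, h6, h7, h8, h9])
                  simp [Finset.sum_range_succ, h0, h1, h2, h3, h4, h5, h6, h7, h8, h9] at r0
                  omega
              · have r0 := H 3 3 3 (by norm_num) (by norm_num) (by intro i hi; interval_cases i <;> simp [h0, h1, h2, h3, h4, h5, h6, h7, h8])
                simp [Finset.sum_range_succ, h0, h1, h2, h3, h4, h5, h6, h7, h8] at r0
                omega
              · have r0 := H 7 1 1 (by norm_num) (by norm_num) (by intro i hi; interval_cases i <;> simp [h0, h1, h2, h3, h4, h5, h6, h7, h8])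
                simp [Finset.sum_range_succ, h0, h1, h2, h3, h4, h5, h6, h7, h8] at r0
                omega
          · have r0 := H 5 1 1 (by norm_num) (by norm_num) (by intro i hi; interval_cases i <;> simp [h0, h1, h2, h3, h4, h5, h6])
            simp [Finset.sum_range_succ, h0, h1, h2, h3, h4, h5, h6] at r0
            omega
          · rcases hall (c 7) with h7 | h7 | h7
            · have r0 := H 1 4 3 (by norm_num) (by norm_num) (by intro i hi; interval_cases i <;> simp [h0, h1, h2, h3, h4, h5, h6, h7])
              simp [Finset.sum_range_succ, h0, h1, h2, h3, h4, h5, h6, h7] at r0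
              omega
            · have r0 := H 4 2 2 (by norm_num) (by norm_num) (by intro i hi; interval_cases i <;> simp [h0, h1, h2, h3, h4, h5, h6, h7])
              simp [Finset.sum_range_succ, h0, h1, h2, h3, h4, h5, h6, h7] at r0
              omega
            · have r0 := H 6 1 1 (by norm_num) (by norm_num) (by intro i hi; interval_cases i <;> simp [h0, h1, h2, h3, h4, h5, h6, h7])
              simp [Finset.sum_range_succ, h0, h1, h2, h3, h4, h5, h6, h7] at r0
              omega
        · have r0 := H 4 1 1 (by norm_num) (by norm_num) (by intro i hi; interval_cases i <;> simp [h0, h1, h2, h3, h4, h5])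
          simp [Finset.sum_range_succ, h0, h1, h2, h3, h4, h5] at r0
          omega
    · rcases hall (c 4) with h4 | h4 | h4
      · rcases hall (c 5) with h5 | h5 | h5
        · have r0 := H 4 1 1 (by norm_num) (by norm_num) (by intro i hi; interval_cases i <;> simp [h0, h1, h2, h3, h4, h5])
          simp [Finset.sum_range_succ, h0, h1, h2, h3, h4, h5] at r0
          omega
        · rcases hall (c 6) with h6 | h6 | h6
          · have r0 := H 3 2 2 (by norm_num) (by norm_num) (by intro i hi; interval_cases i <;> simp [h0, h1, h2, h3, h4, h5, h6])
            simp [Finset.sum_range_succ, h0, h1, h2, h3, h4, h5, h6] at r0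
            omega
          · have r0 := H 5 1 1 (by norm_num) (by norm_num) (by intro i hi; interval_cases i <;> simp [h0, h1, h2, h3, h4, h5, h6])
            simp [Finset.sum_range_succ, h0, h1, h2, h3, h4, h5, h6] at r0
            omega
          · have r0 := H 0 4 3 (by norm_num) (by norm_num) (by intro i hi; interval_cases i <;> simp [h0, h1, h2, h3, h4, h5, h6])
            simp [Finset.sum_range_succ, h0, h1, h2, h3, h4, h5, h6] at r0
            omega
        · rcases hall (c 6) with h6 | h6 | h6
          · rcases hall (c 7) with h7 | h7 | h7
            · have r0 := H 6 1 1 (by norm_num) (by norm_num) (by intro i hi; interval_cases i <;> simp [h0, h1, h2, h3, h4, h5, h6, h7])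
              simp [Finset.sum_range_succ, h0, h1, h2, h3, h4, h5, h6, h7] at r0
              omega
            · rcases hall (c 8) with h8 | h8 | h8
              · rcases hall (c 9) with h9 | h9 | h9
                · have r0 := H 8 1 1 (by norm_num) (by norm_num) (by intro i hi; interval_cases i <;> simp [h0, h1, h2, h3, h4, h5, h6, h7, h8, h9])
                  simp [Finset.sum_range_succ, h0, h1, h2, h3, h4, h5, h6, h7, h8, h9] at r0
                  omega
                · have r0 := H 6 2 2 (by norm_num) (by norm_num) (by intro i hi; interval_cases i <;> simp [h0, h1, h2, h3, h4, h5, h6, h7, h8, h9])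
                  simp [Finset.sum_range_succ, h0, h1, h2, h3, h4, h5, h6, h7, h8, h9] at r0
                  omega
                · have r0 := H 3 4 3 (by norm_num) (by norm_num) (by intro i hi; interval_cases i <;> simp [h0, h1, h2, h3, h4, h5, h6, h7, h8, h9])
                  simp [Finset.sum_range_succ, h0, h1, h2, h3, h4, h5, h6, h7, h8, h9] at r0
                  omega
              · have r0 := H 7 1 1 (by norm_num) (by norm_num) (by intro i hi; interval_cases i <;> simp [h0, h1, h2, h3, h4, h5, h6, h7, h8])
                simp [Finset.sum_range_succ, h0, h1, h2, h3, h4, h5, h6, h7, h8] at r0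
                omega
              · rcases hall (c 9) with h9 | h9 | h9
                · have r0 := H 1 2 1 (by norm_num) (by norm_num) (by intro i hi; interval_cases i <;> simp [h0, h1, h2, h3, h4, h5, h6, h7, h8, h9])
                  simp [Finset.sum_range_succ, h0, h1, h2, h3, h4, h5, h6, h7, h8, h9] at r0
                  have r1 := H 5 3 2 (by norm_num) (by norm_num) (by intro i hi; interval_cases i <;> simp [h0, h1, h2, h3, h4, h5, h6, h7, h8, h9])
                  simp [Finset.sum_range_succ, h0, h1, h2, h3, h4, h5, h6, h7, h8, h9] at r1
                  omega
                · have r0 := H 0 6 4 (by norm_num) (by norm_num) (by intro i hi; interval_cases i <;> simp [h0, h1, h2, h3, h4, h5, h6, h7, h8, h9])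
                  simp [Finset.sum_range_succ, h0, h1, h2, h3, h4, h5, h6, h7, h8, h9] at r0
                  omega
                · have r0 := H 8 1 1 (by norm_num) (by norm_num) (by intro i hi; interval_cases i <;> simp [h0, h1, h2, h3, h4, h5, h6, h7, h8, h9])
                  simp [Finset.sum_range_succ, h0, h1, h2, h3, h4, h5, h6, h7, h8, h9] at r0
                  omega
            · have r0 := H 4 2 2 (by norm_num) (by norm_num) (by intro i hi; interval_cases i <;> simp [h0, h1, h2, h3, h4, h5, h6, h7])
              simp [Finset.sum_range_succ, h0, h1, h2, h3, h4, h5, h6, h7] at r0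
              omega
          · rcases hall (c 7) with h7 | h7 | h7
            · have r0 := H 2 3 3 (by norm_num) (by norm_num) (by intro i hi; interval_cases i <;> simp [h0, h1, h2, h3, h4, h5, h6, h7])
              simp [Finset.sum_range_succ, h0, h1, h2, h3, h4, h5, h6, h7] at r0
              omega
            · have r0 := H 6 1 1 (by norm_num) (by norm_num) (by intro i hi; interval_cases i <;> simp [h0, h1, h2, h3, h4, h5, h6, h7])
              simp [Finset.sum_range_succ, h0, h1, h2, h3, h4, h5, h6, h7] at r0
              omega
            · rcases hall (c 8) with h8 | h8 | h8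
              · rcases hall (c 9) with h9 | h9 | h9
                · have r0 := H 8 1 1 (by norm_num) (by norm_num) (by intro i hi; interval_cases i <;> simp [h0, h1, h2, h3, h4, h5, h6, h7, h8, h9])
                  simp [Finset.sum_range_succ, h0, h1, h2, h3, h4, h5, h6, h7, h8, h9] at r0
                  omega
                · rcases hall (c 10) with h10 | h10 | h10
                  · have r0 := H 8 2 1 (by norm_num) (by norm_num) (by intro i hi; interval_cases i <;> simp [h0, h1, h2, h3, h4, h5, h6, h7, h8, h9, h10])
                    simp [Finset.sum_range_succ, h0, h1, h2, h3, h4, h5, h6, h7, h8, h9, h10] at r0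
                    have r1 := H 2 3 2 (by norm_num) (by norm_num) (by intro i hi; interval_cases i <;> simp [h0, h1, h2, h3, h4, h5, h6, h7, h8, h9, h10])
                    simp [Finset.sum_range_succ, h0, h1, h2, h3, h4, h5, h6, h7, h8, h9, h10] at r1
                    omega
                  · have r0 := H 9 1 1 (by norm_num) (by norm_num) (by intro i hi; interval_cases i <;> simp [h0, h1, h2, h3, h4, h5, h6, h7, h8, h9, h10])
                    simp [Finset.sum_range_succ, h0, h1, h2, h3, h4, h5, h6, h7, h8, h9, h10] at r0
                    omega
                  · rcases hall (c 11) with h11 | h11 | h11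
                    · have r0 := H 6 3 3 (by norm_num) (by norm_num) (by intro i hi; interval_cases i <;> simp [h0, h1, h2, h3, h4, h5, h6, h7, h8, h9, h10, h11])
                      simp [Finset.sum_range_succ, h0, h1, h2, h3, h4, h5, h6, h7, h8, h9, h10, h11] at r0
                      omega
                    · rcases hall (c 12) with h12 | h12 | h12
                      · have r0 := H 2 3 2 (by norm_num) (by norm_num) (by intro i hi; interval_cases i <;> simp [h0, h1, h2, h3, h4, h5, h6, h7, h8, h9, h10, h11, h12])
                        simp [Finset.sum_range_succ, h0, h1, h2, h3, h4, h5, h6, h7, h8, h9, h10, h11, h12] at r0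
                        have r1 := H 0 8 5 (by norm_num) (by norm_num) (by intro i hi; interval_cases i <;> simp [h0, h1, h2, h3, h4, h5, h6, h7, h8, h9, h10, h11, h12])
                        simp [Finset.sum_range_succ, h0, h1, h2, h3, h4, h5, h6, h7, h8, h9, h10, h11, h12] at r1
                        omega
                      · have r0 := H 11 1 1 (by norm_num) (by norm_num) (by intro i hi; interval_cases i <;> simp [h0, h1, h2, h3, h4, h5, h6, h7, h8, h9, h10, h11, h12])
                        simp [Finset.sum_range_succ, h0, h1, h2, h3, h4, h5, h6, h7, h8, h9, h10, h11, h12] at r0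
                        omega
                      · have r0 := H 9 2 2 (by norm_num) (by norm_num) (by intro i hi; interval_cases i <;> simp [h0, h1, h2, h3, h4, h5, h6, h7, h8, h9, h10, h11, h12])
                        simp [Finset.sum_range_succ, h0, h1, h2, h3, h4, h5, h6, h7, h8, h9, h10, h11, h12] at r0
                        omega
                    · have r0 := H 10 1 1 (by norm_num) (by norm_num) (by intro i hi; interval_cases i <;> simp [h0, h1, h2, h3, h4, h5, h6, h7, h8, h9, h10, h11])
                      simp [Finset.sum_range_succ, h0, h1, h2, h3, h4, h5, h6, h7, h8, h9, h10, h11] at r0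
                      omega
                · have r0 := H 2 3 2 (by norm_num) (by norm_num) (by intro i hi; interval_cases i <;> simp [h0, h1, h2, h3, h4, h5, h6, h7, h8, h9])
                  simp [Finset.sum_range_succ, h0, h1, h2, h3, h4, h5, h6, h7, h8, h9] at r0
                  have r1 := H 4 4 2 (by norm_num) (by norm_num) (by intro i hi; interval_cases i <;> simp [h0, h1, h2, h3, h4, h5, h6, h7, h8, h9])
                  simp [Finset.sum_range_succ, h0, h1, h2, h3, h4, h5, h6, h7, h8, h9] at r1
                  omega
              · have r0 := H 5 2 2 (by norm_num) (by norm_num) (by intro i hi; interval_cases i <;> simp [h0, h1, h2, h3, h4, h5, h6, h7, h8])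
                simp [Finset.sum_range_succ, h0, h1, h2, h3, h4, h5, h6, h7, h8] at r0
                omega
              · have r0 := H 7 1 1 (by norm_num) (by norm_num) (by intro i hi; interval_cases i <;> simp [h0, h1, h2, h3, h4, h5, h6, h7, h8])
                simp [Finset.sum_range_succ, h0, h1, h2, h3, h4, h5, h6, h7, h8] at r0
                omega
          · have r0 := H 5 1 1 (by norm_num) (by norm_num) (by intro i hi; interval_cases i <;> simp [h0, h1, h2, h3, h4, h5, h6])
            simp [Finset.sum_range_succ, h0, h1, h2, h3, h4, h5, h6] at r0
            omega
      · have r0 := H 3 1 1 (by norm_num) (by norm_num) (by intro i hi; interval_cases i <;> simp [h0, h1, h2, h3, h4])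
        simp [Finset.sum_range_succ, h0, h1, h2, h3, h4] at r0
        omega
      · have r0 := H 1 2 2 (by norm_num) (by norm_num) (by intro i hi; interval_cases i <;> simp [h0, h1, h2, h3, h4])
        simp [Finset.sum_range_succ, h0, h1, h2, h3, h4] at r0
        omega
    · have r0 := H 2 1 1 (by norm_num) (by norm_num) (by intro i hi; interval_cases i <;> simp [h0, h1, h2, h3])
      simp [Finset.sum_range_succ, h0, h1, h2, h3] at r0
      omega

end Pool.Agent.H95.LX
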