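import Pool.Agent.H95.LX.Gap

/-!
# The mean return time
-/

set_option autoImplicit false

namespace Pool.Agent.H95.LX

open Finset

/-- The properties of the return times which are used. -/
structure Wave (R : ℕ → ℤ) (ν : ℕ) : Prop where
  low : ∀ x, 2 * (ν : ℤ) ≤ R x
  len : ∀ (x m : ℕ), 1 ≤ m → R x < 4 * ν → (∀ k < m, R (x + k) = R x) →
    2 * (ν : ℤ) + 2 * m ≤ R x
  dist : ∀ (x t : ℕ), R x ≠ R (x + 1 + t) → (R x < 6 * ν ∨ R (x + 1 + t) < 6 * ν) →
    2 * ((ν : ℤ) - t) ≤ |R x - R (x + 1 + t)|
  sep : ∀ (x t k : ℕ), R x = R (x + 1 + t) → R x < 4 * ν → k ≤ t → R x < R (x + k) → ν ≤ t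

variable {R : ℕ → ℤ} {ν : ℕ}

/-- A low interval is constant. -/
lemma Wave.const (hw : Wave R ν) {x m : ℕ} (h : ∀ k ≤ m, R (x + k) < 4 * ν) :
    ∀ k ≤ m, R (x + k) = R x := by
  intro k
  induction k with
  | zero => intro _; simp
  | succ k ih =>
    intro hk
    rw [← ih (by omega)]
    by_contra hne
    have h1 := h k (by omega)
    have h2 := h (k + 1) hk
    have e : x + k + 1 + 0 = x + (k + 1) := by ring
    have h3 := hw.dist (x + k) 0 (by rw [e]; exact fun h' => hne h'.symm)
      (Or.inl (by have := hw.low (x + k); omega))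
    rw [e] at h3
    have h4 := hw.low (x + k)
    have h5 := hw.low (x + (k + 1))
    have h6 : |R (x + k) - R (x + (k + 1))| < 2 * ν := by
      rw [abs_lt]
      constructor <;> omega
    push_cast at h3
    omega

/-- The beginning of a low interval. -/
def Start (R : ℕ → ℤ) (ν N : ℕ) : Prop := R N < 4 * ν ∧ (N = 0 ∨ 4 * (ν : ℤ) ≤ R (N - 1))

lemma exists_start {y : ℕ} (hy : R y < 4 * ν) :
    ∃ x m, y = x + m ∧ Start R ν x ∧ ∀ k ≤ m, R (x + k) < 4 * ν := by
  induction y with
  | zero => exact ⟨0, 0, rfl, ⟨hy, Or.inl rfl⟩, fun k hk => by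
      have : k = 0 := by omega
      subst this
      simpa using hy⟩
  | succ y ih =>
    rcases lt_or_ge (R y) (4 * ν) with h | h
    · obtain ⟨x, m, rfl, hs, hk⟩ := ih h
      refine ⟨x, m + 1, rfl, hs, fun k hk' => ?_⟩
      rcases Nat.lt_or_ge m k with h1 | h1
      · have : k = m + 1 := by omega
        subst this
        exact hy
      · exact hk k h1
    · refine ⟨y + 1, 0, rfl, ⟨hy, Or.inr (by simpa using h)⟩, fun k hk => ?_⟩
      have : k = 0 := by omega
      subst this
      simpa using hy

/-- The last low cell before `N`. -/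
lemma exists_last {N : ℕ} (h : ∃ z < N, R z < 4 * ν) :
    ∃ y h, N = y + 1 + h ∧ R y < 4 * ν ∧ ∀ t < h, 4 * (ν : ℤ) ≤ R (y + 1 + t) := by
  classical
  have hex : ∃ h, h < N ∧ R (N - 1 - h) < 4 * ν := by
    obtain ⟨z, hz, hz'⟩ := h
    exact ⟨N - 1 - z, by omega, by rwa [show N - 1 - (N - 1 - z) = z by omega]⟩
  obtain ⟨h1, h2⟩ := Nat.find_spec hex
  refine ⟨N - 1 - Nat.find hex, Nat.find hex, by omega, h2, fun t ht => ?_⟩
  by_contra hc
  push Not at hc
  refine Nat.find_min hex (m := Nat.find hex - 1 - t) (by omega) ⟨by omega, ?_⟩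
  rwa [show N - 1 - (Nat.find hex - 1 - t) = N - 1 - Nat.find hex + 1 + t by omega]

lemma low_sum (hw : Wave R ν) {x m : ℕ} (h : ∀ k ≤ m, R (x + k) < 4 * ν) :
    -(2 * ((R x - 2 * ν) * (2 * ν - (R x - 2 * ν)))) ≤
      4 * ∑ k ∈ range (m + 1), (R (x + k) - 4 * (ν : ℤ)) := by
  have h1 := hw.const h
  have h2 := hw.len x (m + 1) (by omega) (by simpa using h 0 (by omega))
    (fun k hk => h1 k (by omega))
  have h3 : ∑ k ∈ range (m + 1), (R (x + k) - 4 * (ν : ℤ)) = (m + 1) * (R x - 4 * ν) := by
    rw [sum_congr rfl (fun k hk => by rw [h1 k (by rw [mem_range] at hk; omega)]), sum_const,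
      card_range, nsmul_eq_mul]
    push_cast
    ring
  rw [h3]
  have h4 : R x < 4 * ν := by simpa using h 0 (by omega)
  push_cast at h2
  nlinarith

/-- The estimate at the beginning of a low interval. -/
lemma start_le (hw : Wave R ν) (N : ℕ) : Start R ν N →
    (R N - 2 * ν) * (2 * ν - (R N - 2 * ν)) - (ν : ℤ) ^ 2 ≤
      4 * ∑ x ∈ range N, (R x - 4 * (ν : ℤ)) := by
  induction N using Nat.strong_induction_on with
  | _ N ih =>
    intro hN
    by_cases hz : ∃ z < N, R z < 4 * ν
    · obtain ⟨y, h, hNy, hy, hgap⟩ := exists_last hz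
      obtain ⟨x, m, hyx, hx, hlow⟩ := exists_start hy
      have h1 := ih x (by omega) hx
      have h2 := low_sum hw hlow
      have hyR : R y = R x := by rw [hyx]; exact hw.const hlow m le_rfl
      have hh1 : 1 ≤ h := by
        rcases Nat.eq_zero_or_pos h with h0 | h0
        · exfalso
          rcases hN.2 with h3 | h3
          · omega
          · rw [show N - 1 = y by omega] at h3
            omega
        · exact h0
      have hlowy := hw.low y
      have hlowN := hw.low N
      have hNlt := hN.1
      have h3 := gap (ν := ν) (f := fun t => R (y + 1 + t)) (h := h) (A := R y - 2 * ν)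
        (B := R N - 2 * ν) hh1 (by omega) (by omega) (by omega) (by omega) hgap
        (by
          intro t ht _
          have h4 := hgap t ht
          have h5 := hw.dist y t (by omega) (Or.inl (by omega))
          rw [abs_of_neg (by omega)] at h5
          omega)
        (by
          intro t ht _
          have h4 := hgap t ht
          have e : y + 1 + t + 1 + (h - 1 - t) = N := by omega
          have h5 := hw.dist (y + 1 + t) (h - 1 - t) (by rw [e]; omega)
            (Or.inr (by rw [e]; omega))
          rw [e, abs_of_pos (by omega)] at h5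
          have e2 : ((h - 1 - t : ℕ) : ℤ) = h - 1 - t := by omega
          rw [e2] at h5
          omega)
        (by
          intro s t hst ht hne h6
          have e : y + 1 + s + 1 + (t - s - 1) = y + 1 + t := by omega
          have h5 := hw.dist (y + 1 + s) (t - s - 1) (by rw [e]; exact hne) (by rw [e]; exact h6)
          rw [e] at h5
          have e2 : ((t - s - 1 : ℕ) : ℤ) = t - s - 1 := by omega
          rw [e2] at h5
          exact h5)
        (by
          rcases eq_or_ne (R y) (R N) with heq | hne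
          · have h5 := hw.sep y h 1 (by rw [← hNy]; exact heq) hy hh1 (by
              have := hgap 0 (by omega)
              simp only [Nat.add_zero] at this
              omega)
            have := abs_nonneg ((R y - 2 * ν) - (R N - 2 * ν))
            rw [heq, sub_self, abs_zero]
            omega
          · have h5 := hw.dist y h (by rw [← hNy]; exact hne) (Or.inl (by omega))
            rw [← hNy] at h5
            have e3 : (R y - 2 * ν) - (R N - 2 * ν) = R y - R N := by ring
            rw [e3]
            omega)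
      have hs : ∑ z ∈ range N, (R z - 4 * (ν : ℤ)) = ∑ z ∈ range x, (R z - 4 * (ν : ℤ)) +
          ∑ k ∈ range (m + 1), (R (x + k) - 4 * (ν : ℤ)) +
          ∑ t ∈ range h, (R (y + 1 + t) - 4 * (ν : ℤ)) := by
        rw [show N = x + (m + 1) + h by omega, sum_range_add, sum_range_add]
        congr 1
        apply sum_congr rfl
        intro t _
        rw [show x + (m + 1) + t = y + 1 + t by omega]
      rw [hs, hyR] at *
      linarith
    · push Not at hz
      have h1 : 0 ≤ ∑ x ∈ range N, (R x - 4 * (ν : ℤ)) := by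
        apply sum_nonneg
        intro x hx
        have := hz x (mem_range.1 hx)
        omega
      nlinarith [sq_nonneg (R N - 2 * ν - ν)]

/-- **The mean return time is at least `4 ν`.** -/
theorem mean_le (hw : Wave R ν) (N : ℕ) :
    -(2 * (ν : ℤ) ^ 2) ≤ 4 * ∑ x ∈ range N, (R x - 4 * (ν : ℤ)) := by
  by_cases hz : ∃ z < N, R z < 4 * ν
  · obtain ⟨y, h, hNy, hy, hgap⟩ := exists_last hz
    obtain ⟨x, m, hyx, hx, hlow⟩ := exists_start hy
    have h1 := start_le hw x hx
    have h2 := low_sum hw hlow
    have h3 : 0 ≤ ∑ t ∈ range h, (R (y + 1 + t) - 4 * (ν : ℤ)) := by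
      apply sum_nonneg
      intro t ht
      have := hgap t (mem_range.1 ht)
      omega
    have hs : ∑ z ∈ range N, (R z - 4 * (ν : ℤ)) = ∑ z ∈ range x, (R z - 4 * (ν : ℤ)) +
        ∑ k ∈ range (m + 1), (R (x + k) - 4 * (ν : ℤ)) +
        ∑ t ∈ range h, (R (y + 1 + t) - 4 * (ν : ℤ)) := by
      rw [show N = x + (m + 1) + h by omega, sum_range_add, sum_range_add]
      congr 1
      apply sum_congr rfl
      intro t _
      rw [show x + (m + 1) + t = y + 1 + t by omega]
    rw [hs]
    nlinarith [sq_nonneg (R x - 2 * ν - ν)]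
  · push Not at hz
    have h1 : 0 ≤ ∑ x ∈ range N, (R x - 4 * (ν : ℤ)) := by
      apply sum_nonneg
      intro x hx
      have := hz x (mem_range.1 hx)
      omega
    nlinarith [sq_nonneg (ν : ℤ)]

end Pool.Agent.H95.LX
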